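import Pool.Agent.H999_TwoFactor.TConv

/-!
# Deciding whether a graph has a 2-factor with all cycles of length at least 5 is in `coNP`

The input is a finite simple graph given by an adjacency matrix `M : List (List Bool)`;
`matGraph M` is the graph, its vertices are the row indices of `M`.
-/

namespace Pool.Agent.Results.MP_d66f00_lc.ShortCycleFreeCoNP

open Pool.Agent.NPC Pool.Agent.H622R2

/-- `N` is a 2-factor of `G`: a spanning subgraph in which every vertex has degree 2. -/
def IsTwoFactor {V : Type*} (G N : SimpleGraph V) : Prop :=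
  N ≤ G ∧ ∀ v, (N.neighborSet v).ncard = 2

/-- `G` has an `S`-free 2-factor: a 2-factor none of whose cycles has its length in `S`. -/
def HasFreeTwoFactor {V : Type*} (S : Set ℕ) (G : SimpleGraph V) : Prop :=
  ∃ N, IsTwoFactor G N ∧ ∀ (v : V) (p : N.Walk v v), p.IsCycle → p.length ∉ S

/-- The decision problem `2F(S)`: does the graph with adjacency matrix `M` have an `S`-free
2-factor? -/
def TwoF (S : Set ℕ) (M : List (List Bool)) : Prop := HasFreeTwoFactor S (matGraph M)

/-- `2F({3,4})` is in `coNP`; so if it is `NP`-hard, then every problem in `NP` is in `coNP`. -/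
theorem result : InCoNPP (TwoF {3, 4}) ∧
    (NPHardP (TwoF {3, 4}) → ∀ L : Set (List Bool), InNP L → InCoNP L) :=
  ⟨H999.inCoNPP_ST, fun h L hL => InNP.of_reduces (Reduces.compl (h L hL)) H999.inCoNPP_ST⟩

end Pool.Agent.Results.MP_d66f00_lc.ShortCycleFreeCoNP
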