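import Pool.Agent.H999_TwoFactor.Minimal

/-!
Obstructions to 2-factors avoiding prescribed triangles and 4-cycles can be uncrossed.
-/

namespace Pool.Agent.Results.MP_d66f00_lc.Uncrossed

/-- `Z` is the edge set of a triangle on the vertex set `V`. -/
def IsC3 {V : Type*} (Z : Set (Sym2 V)) : Prop :=
  ∃ a b c : V, a ≠ b ∧ a ≠ c ∧ b ≠ c ∧ Z = {s(a, b), s(b, c), s(c, a)}

/-- `Z` is the edge set of a 4-cycle on the vertex set `V`. -/
def IsC4 {V : Type*} (Z : Set (Sym2 V)) : Prop :=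
  ∃ a b c d : V, a ≠ b ∧ a ≠ c ∧ a ≠ d ∧ b ≠ c ∧ b ≠ d ∧ c ≠ d ∧
    Z = {s(a, b), s(b, c), s(c, d), s(d, a)}

/-- `N` is a 2-factor of `G`: a spanning subgraph in which every vertex has degree 2. -/
def IsTwoFactor {V : Type*} (G N : SimpleGraph V) : Prop :=
  N ≤ G ∧ ∀ v, (N.neighborSet v).ncard = 2

/-- The family `T` of edge sets blocks `G`: every 2-factor of `G` contains a member of `T`. -/
def Blocks {V : Type*} (G : SimpleGraph V) (T : Set (Set (Sym2 V))) : Prop :=
  ∀ N : SimpleGraph V, IsTwoFactor G N → ∃ Z ∈ T, Z ⊆ N.edgeSet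

/-- The family `T` is uncrossed: two distinct members sharing exactly one edge are always
triangles whose symmetric difference (a 4-cycle) is again a member of `T`. -/
def IsUncrossed {V : Type*} (T : Set (Set (Sym2 V))) : Prop :=
  ∀ Z ∈ T, ∀ Z' ∈ T, Z ≠ Z' → (Z ∩ Z').ncard = 1 → IsC3 Z ∧ IsC3 Z' ∧ symmDiff Z Z' ∈ T

section aux

open H999

variable {V : Type*} [Fintype V] [DecidableEq V]

theorem coe_tri (a b c : V) :
    ((tri a b c : Finset (Sym2 V)) : Set (Sym2 V)) = {s(a, b), s(b, c), s(c, a)} := by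
  simp [tri]

theorem coe_quad (a b c d : V) :
    ((quad a b c d : Finset (Sym2 V)) : Set (Sym2 V)) =
      {s(a, b), s(b, c), s(c, d), s(d, a)} := by
  simp [quad]

theorem short_iff (Z : Finset (Sym2 V)) : Short Z ↔ IsC3 (Z : Set (Sym2 V)) ∨
    IsC4 (Z : Set (Sym2 V)) := by
  unfold Short IsC3 IsC4
  simp only [← coe_tri, ← coe_quad, Finset.coe_inj]

/-- a 2-factor as a finite edge set -/
theorem tf_of_twoFactor {N : SimpleGraph V} [DecidableRel N.Adj]
    (hN : ∀ v, (N.neighborSet v).ncard = 2) : TF N.edgeFinset := by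
  refine ⟨?_, ?_⟩
  · intro x y h
    rw [SimpleGraph.mem_edgeFinset, SimpleGraph.mem_edgeSet] at h
    exact h.ne
  · intro v
    unfold dg
    rw [← SimpleGraph.incidenceFinset_eq_filter, SimpleGraph.card_incidenceFinset_eq_degree,
      ← SimpleGraph.card_neighborSet_eq_degree, ← Nat.card_eq_fintype_card,
      Nat.card_coe_set_eq, hN v]
    rfl

theorem twoFactor_of_tf {N : Finset (Sym2 V)} (hN : TF N) (v : V) :
    ((SimpleGraph.fromEdgeSet (N : Set (Sym2 V))).neighborSet v).ncard = 2 := by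
  classical
  have h1 : (SimpleGraph.fromEdgeSet (N : Set (Sym2 V))).edgeSet = (N : Set (Sym2 V)) := by
    rw [SimpleGraph.edgeSet_fromEdgeSet]
    ext e
    simp only [Set.mem_diff, Finset.mem_coe, Set.mem_setOf_eq, and_iff_left_iff_imp]
    intro he
    induction e using Sym2.ind with
    | _ x y =>
      have := hN.ne he
      simpa using this
  have h2 : (SimpleGraph.fromEdgeSet (N : Set (Sym2 V))).edgeFinset = N := by
    ext e
    rw [SimpleGraph.mem_edgeFinset, h1]
    rfl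
  have h3 := hN.deg v
  unfold dg at h3
  rw [← h2, ← SimpleGraph.incidenceFinset_eq_filter,
    SimpleGraph.card_incidenceFinset_eq_degree, ← SimpleGraph.card_neighborSet_eq_degree,
    ← Nat.card_eq_fintype_card, Nat.card_coe_set_eq] at h3
  exact_mod_cast h3

theorem edgeSet_of_tf {N : Finset (Sym2 V)} (hN : TF N) :
    (SimpleGraph.fromEdgeSet (N : Set (Sym2 V))).edgeSet = (N : Set (Sym2 V)) := by
  rw [SimpleGraph.edgeSet_fromEdgeSet]
  ext e
  simp only [Set.mem_diff, Finset.mem_coe, Set.mem_setOf_eq, and_iff_left_iff_imp]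
  intro he
  induction e using Sym2.ind with
  | _ x y =>
    have := hN.ne he
    simpa using this

theorem uncrossed_of_minimal {G : SimpleGraph V} {T : Set (Set (Sym2 V))}
    (hT : ∀ Z ∈ T, IsC3 Z ∨ IsC4 Z) (hmin : Minimal (Blocks G) T) : IsUncrossed T := by
  classical
  intro Z hZ Z' hZ' hne hcard
  have hT' : ∀ Z ∈ {Z : Finset (Sym2 V) | (Z : Set (Sym2 V)) ∈ T}, Short Z := by
    intro W hW
    exact (short_iff W).2 (hT _ hW)
  have hblock : ∀ N : Finset (Sym2 V), TF N → (∀ g ∈ N, g ∈ G.edgeSet) →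
      ∃ Z ∈ {Z : Finset (Sym2 V) | (Z : Set (Sym2 V)) ∈ T}, Z ⊆ N := by
    intro N hN hNG
    obtain ⟨W, hW, hWN⟩ := hmin.prop (SimpleGraph.fromEdgeSet (N : Set (Sym2 V)))
      ⟨by
        rw [← SimpleGraph.edgeSet_subset_edgeSet, edgeSet_of_tf hN]
        exact fun g hg => hNG g hg, twoFactor_of_tf hN⟩
    rw [edgeSet_of_tf hN] at hWN
    refine ⟨(Set.toFinite W).toFinset,
      by rw [Set.mem_setOf_eq, Set.Finite.coe_toFinset]; exact hW, ?_⟩
    intro g hg
    exact hWN ((Set.Finite.mem_toFinset _).1 hg)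
  have hirr : ∀ Z ∈ {Z : Finset (Sym2 V) | (Z : Set (Sym2 V)) ∈ T},
      ∃ N : Finset (Sym2 V), TF N ∧ (∀ g ∈ N, g ∈ G.edgeSet) ∧
      ∀ W ∈ {Z : Finset (Sym2 V) | (Z : Set (Sym2 V)) ∈ T}, W ⊆ N → W = Z := by
    intro W hW
    have h1 : ¬ Blocks G (T \ {(W : Set (Sym2 V))}) := by
      intro h
      have h2 := hmin.le_of_le h Set.sdiff_subset hW
      exact h2.2 rfl
    unfold Blocks at h1
    push Not at h1
    obtain ⟨N, hN, h2⟩ := h1
    refine ⟨N.edgeFinset, tf_of_twoFactor hN.2, ?_, ?_⟩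
    · intro g hg
      rw [SimpleGraph.mem_edgeFinset] at hg
      exact SimpleGraph.edgeSet_mono hN.1 hg
    · intro W' hW' hsub
      by_contra hne'
      refine h2 (W' : Set (Sym2 V)) ⟨hW', ?_⟩ ?_
      · intro h3
        exact hne' (Finset.coe_injective h3)
      · intro g hg
        have := hsub hg
        rwa [SimpleGraph.mem_edgeFinset] at this
  obtain ⟨A, rfl⟩ : ∃ A : Finset (Sym2 V), (A : Set (Sym2 V)) = Z :=
    ⟨(Set.toFinite Z).toFinset, Set.Finite.coe_toFinset _⟩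
  obtain ⟨B, rfl⟩ : ∃ B : Finset (Sym2 V), (B : Set (Sym2 V)) = Z' :=
    ⟨(Set.toFinite Z').toFinset, Set.Finite.coe_toFinset _⟩
  have hc : (A ∩ B).card = 1 := by
    rw [← Finset.coe_inter, Set.ncard_coe_finset] at hcard
    exact hcard
  obtain ⟨⟨a, b, c, h1, h2, h3, h4⟩, ⟨a', b', c', h1', h2', h3', h4'⟩, h5⟩ :=
    uncrossed_of_irredundant hT' hblock hirr hZ hZ' (fun h => hne (by rw [h])) hc
  refine ⟨⟨a, b, c, h1, h2, h3, by rw [h4, coe_tri]⟩,
    ⟨a', b', c', h1', h2', h3', by rw [h4', coe_tri]⟩, ?_⟩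
  have h6 : ((symmDiff A B : Finset (Sym2 V)) : Set (Sym2 V)) ∈ T := h5
  rwa [Finset.coe_symmDiff] at h6

end aux

/-- Let `S` be a family of triangles and 4-cycles such that every 2-factor of the finite simple
graph `G` contains a member of `S`. Then `S` has an inclusion-minimal subfamily with this
property, and every such minimal subfamily is uncrossed. -/
theorem result {V : Type*} [Finite V] (G : SimpleGraph V) (S : Set (Set (Sym2 V)))
    (hS : ∀ Z ∈ S, IsC3 Z ∨ IsC4 Z) (hblock : Blocks G S) :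
    (∃ T ⊆ S, Minimal (Blocks G) T) ∧ ∀ T ⊆ S, Minimal (Blocks G) T → IsUncrossed T := by
  classical
  have := Fintype.ofFinite V
  refine ⟨?_, fun T hTS hT => uncrossed_of_minimal (fun Z hZ => hS Z (hTS hZ)) hT⟩
  obtain ⟨T, hT1, hT2⟩ := (Set.toFinite {T : Set (Set (Sym2 V)) | Blocks G T}).exists_le_minimal
    hblock
  exact ⟨T, hT1, hT2⟩

end Pool.Agent.Results.MP_d66f00_lc.Uncrossed
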